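import Pool.Agent.H67R4.OG.Final

set_option autoImplicit false

namespace Pool.Agent.Results.MP_1babb5_al.CubesCounterexample

open Pool.Agent.H67R4.OG

/-- For every `k ≥ 3` the word `w = x₁³ x₂³ ⋯ x_k³` is a counterexample to the conjecture that the
growth of the set of the cyclic words in the automorphic orbit of `w` is `(2k - 3) ^ (1 / μ(w))`: one
has `μ(w) = 3` and the growth is at least the square root of `2k - 3`. -/
theorem result (k : ℕ) (hk : 3 ≤ k) : cubes k ≠ 1 ∧
    (∀ x : Fin k, mu x (cubes k) = 3 ∧ muCyc x (cubes k) = 3) ∧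
    Real.sqrt (2 * k - 3) ≤ growth (cubes k) ∧
    ∀ x : Fin k, (2 * (k : ℝ) - 3) ^ ((1 : ℝ) / (mu x (cubes k) : ℝ)) < growth (cubes k) :=
  main hk

end Pool.Agent.Results.MP_1babb5_al.CubesCounterexample
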